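import Pool.Agent.U544.SC.Defs

/-! Algebra of the traces. -/

set_option autoImplicit false

namespace Pool.Agent.U544.SC

open ComplexConjugate

variable {N m : ℕ}

theorem sum_wgt (l : Fin m → ℕ) (u : Fin N → ℂ) :
    ∑ f : Ix N m l, wgt u f = ∏ j : Fin m, esy u ((j : ℕ) + 1) ^ l j := by
  classical
  have h1 : ∀ j : Fin m, esy u ((j : ℕ) + 1) ^ l j =
      ∑ p : Fin (l j) → {s : Finset (Fin N) // s.card = (j : ℕ) + 1}, ∏ a, ∏ k ∈ (p a).1, u k :=
    fun j => Fintype.sum_pow _ _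
  rw [Finset.prod_congr rfl fun j _ => h1 j, Finset.prod_univ_sum, Fintype.piFinset_univ]
  rfl

theorem norm_wgt {l : Fin m → ℕ} {u : Fin N → ℂ} (hu : ∀ k, ‖u k‖ = 1) (f : Ix N m l) :
    ‖wgt u f‖ = 1 := by
  unfold wgt
  rw [norm_prod]
  refine Finset.prod_eq_one fun j _ => ?_
  rw [norm_prod]
  refine Finset.prod_eq_one fun a _ => ?_
  rw [norm_prod]
  exact Finset.prod_eq_one fun k _ => hu k

theorem esy_perm (u : Fin N → ℂ) (σ : Equiv.Perm (Fin N)) (j : ℕ) :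
    esy (fun k => u (σ k)) j = esy u j := by
  classical
  unfold esy
  refine Fintype.sum_equiv ((Equiv.finsetCongr σ).subtypeEquiv fun s => ?_) _ _ fun s => ?_
  · rw [Equiv.finsetCongr_apply, Finset.card_map]
  · simp only [Equiv.subtypeEquiv_apply, Equiv.finsetCongr_apply]
    rw [Finset.prod_map]
    rfl

theorem conj_esy (u : Fin N → ℂ) (j : ℕ) : conj (esy u j) = esy (fun k => conj (u k)) j := by
  unfold esy
  rw [map_sum]
  exact Finset.sum_congr rfl fun s _ => map_prod _ _ _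

theorem esy_real {u : Fin N → ℂ} (h : ∃ σ : Equiv.Perm (Fin N), ∀ k, conj (u k) = u (σ k))
    (j : ℕ) : ((esy u j).re : ℂ) = esy u j := by
  obtain ⟨σ, hσ⟩ := h
  rw [← Complex.conj_eq_iff_re, conj_esy, ← esy_perm u σ j]
  congr 1
  funext k
  exact hσ k

theorem norm_esy_le {u : Fin N → ℂ} (hu : ∀ k, ‖u k‖ = 1) (j : ℕ) : ‖esy u j‖ ≤ 2 ^ N := by
  classical
  unfold esy
  refine (norm_sum_le _ _).trans ?_
  have h1 : ∀ s : {s : Finset (Fin N) // s.card = j}, ‖∏ k ∈ s.1, u k‖ = 1 := fun s => by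
    rw [norm_prod]
    exact Finset.prod_eq_one fun k _ => hu k
  rw [Finset.sum_congr rfl fun s _ => h1 s, Finset.sum_const, nsmul_eq_mul, mul_one,
    Finset.card_univ]
  have h2 : Fintype.card {s : Finset (Fin N) // s.card = j} ≤ 2 ^ N := by
    refine (Fintype.card_subtype_le _).trans ?_
    rw [Fintype.card_finset, Fintype.card_fin]
  exact_mod_cast h2

theorem abs_coef_le {u : Fin N → ℂ} (hu : ∀ k, ‖u k‖ = 1) (j : Fin m) :
    |coef m u j| ≤ ((2 ^ N : ℕ) : ℝ) := by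
  unfold coef
  push_cast
  exact (Complex.abs_re_le_norm _).trans (norm_esy_le hu _)

/-- the trace on `V_l` -/
theorem sum_wgt_real (l : Fin m → ℕ) {u : Fin N → ℂ}
    (h : ∃ σ : Equiv.Perm (Fin N), ∀ k, conj (u k) = u (σ k)) :
    ∑ f : Ix N m l, wgt u f = ((∏ j, coef m u j ^ l j : ℝ) : ℂ) := by
  rw [sum_wgt]
  push_cast
  refine Finset.prod_congr rfl fun j _ => ?_
  rw [coef, esy_real h]

end Pool.Agent.U544.SC
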