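import Pool.Agent.U544.MZ.Poly

/-! Approximation of continuous functions on a cube by sums of monomials whose exponents are zero or
elements of a set `S` of exponents. -/

set_option autoImplicit false

namespace Pool.Agent.U544.SC

open Finset

/-- `S` is a set of positive integers such that the sum of the reciprocals of its even elements and the sum
of the reciprocals of its odd elements both diverge (for example the set of all numbers `p` and `2 p`,
`p` a large prime). -/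
def IsMuntzSet (S : Set ℕ) : Prop :=
  (∀ s ∈ S, 1 ≤ s) ∧
  ¬ Summable (fun s : {s : ℕ | s ∈ S ∧ Even s} => (1 : ℝ) / (s : ℕ)) ∧
  ¬ Summable (fun s : {s : ℕ | s ∈ S ∧ Odd s} => (1 : ℝ) / (s : ℕ))

theorem one_var {S : Set ℕ} (hS : IsMuntzSet S) (N r : ℕ) {η : ℝ} (hη : 0 < η) :
    ∃ (Λ : Finset ℕ) (a : ℕ → ℝ), (∀ l ∈ Λ, l = 0 ∨ l ∈ S) ∧
      ∀ t : ℝ, |t| ≤ N → |t ^ r - ∑ l ∈ Λ, a l * t ^ l| ≤ η := by
  rcases Nat.eq_zero_or_pos r with hr | hr
  · refine ⟨{0}, fun _ => 1, fun l hl => Or.inl (mem_singleton.1 hl), fun t _ => ?_⟩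
    rw [sum_singleton, hr, one_mul, sub_self, abs_zero]
    exact hη.le
  rcases Nat.even_or_odd r with h | h
  · obtain ⟨Λ, a, h1, h2⟩ := MZ.muntz_sym (e := 0) (S := {s : ℕ | s ∈ S ∧ Even s})
      ⟨fun s hs => ⟨hS.1 s hs.1, by simp [hs.2]⟩, hS.2.1⟩ hr (by simp [h]) N hη
    exact ⟨Λ, a, fun l hl => Or.inr (h1 l hl).1, h2⟩
  · obtain ⟨Λ, a, h1, h2⟩ := MZ.muntz_sym (e := 1) (S := {s : ℕ | s ∈ S ∧ Odd s})
      ⟨fun s hs => ⟨hS.1 s hs.1, by simp [hs.2]⟩, hS.2.2⟩ hr (by simp [h]) N hη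
    exact ⟨Λ, a, fun l hl => Or.inr (h1 l hl).1, h2⟩

/-- approximation on the cube -/
def Ap (S : Set ℕ) {m : ℕ} (N : ℕ) (F : (Fin m → ℝ) → ℝ) : Prop :=
  ∀ η : ℝ, 0 < η → ∃ (Λ : Finset (Fin m → ℕ)) (a : (Fin m → ℕ) → ℝ),
    (∀ l ∈ Λ, ∀ j, l j = 0 ∨ l j ∈ S) ∧
    ∀ t : Fin m → ℝ, (∀ j, |t j| ≤ N) → |F t - ∑ l ∈ Λ, a l * ∏ j, t j ^ l j| ≤ η

variable {S : Set ℕ} {m N : ℕ}

theorem Ap.zero : Ap S N (fun _ : Fin m → ℝ => 0) := fun η hη =>
  ⟨∅, fun _ => 0, fun l hl => absurd hl (notMem_empty _), fun t _ => by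
    rw [sum_empty, sub_zero, abs_zero]
    exact hη.le⟩

theorem Ap.mono {l : Fin m → ℕ} (hl : ∀ j, l j = 0 ∨ l j ∈ S) :
    Ap S N (fun t : Fin m → ℝ => ∏ j, t j ^ l j) := fun η hη =>
  ⟨{l}, fun _ => 1, fun l' hl' => by rw [mem_singleton.1 hl']; exact hl, fun t _ => by
    rw [sum_singleton, one_mul, sub_self, abs_zero]
    exact hη.le⟩

theorem Ap.add {F G : (Fin m → ℝ) → ℝ} (hF : Ap S N F) (hG : Ap S N G) :
    Ap S N (fun t => F t + G t) := by
  classical
  intro η hη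
  obtain ⟨Λ, a, h1, h2⟩ := hF (η / 2) (by positivity)
  obtain ⟨Λ', a', h1', h2'⟩ := hG (η / 2) (by positivity)
  refine ⟨Λ ∪ Λ', fun l => (if l ∈ Λ then a l else 0) + (if l ∈ Λ' then a' l else 0),
    fun l hl => ?_, fun t ht => ?_⟩
  · rcases mem_union.1 hl with h | h
    · exact h1 l h
    · exact h1' l h
  · have e1 : ∑ l ∈ Λ ∪ Λ', ((if l ∈ Λ then a l else 0) + (if l ∈ Λ' then a' l else 0)) *
        ∏ j, t j ^ l j = ∑ l ∈ Λ, a l * ∏ j, t j ^ l j + ∑ l ∈ Λ', a' l * ∏ j, t j ^ l j := by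
      simp only [add_mul, ite_mul, zero_mul]
      rw [sum_add_distrib]
      congr 1
      · rw [← sum_filter]
        refine sum_congr ?_ fun _ _ => rfl
        ext l
        simp only [mem_filter, mem_union]
        tauto
      · rw [← sum_filter]
        refine sum_congr ?_ fun _ _ => rfl
        ext l
        simp only [mem_filter, mem_union]
        tauto
    rw [e1]
    have h3 := h2 t ht
    have h4 := h2' t ht
    rw [abs_le] at h3 h4 ⊢
    constructor <;> linarith [h3.1, h3.2, h4.1, h4.2]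

theorem Ap.const_mul {F : (Fin m → ℝ) → ℝ} (hF : Ap S N F) (c : ℝ) :
    Ap S N (fun t => c * F t) := by
  intro η hη
  obtain ⟨Λ, a, h1, h2⟩ := hF (η / (|c| + 1)) (by positivity)
  refine ⟨Λ, fun l => c * a l, h1, fun t ht => ?_⟩
  have e : c * F t - ∑ l ∈ Λ, c * a l * ∏ j, t j ^ l j =
      c * (F t - ∑ l ∈ Λ, a l * ∏ j, t j ^ l j) := by
    rw [mul_sub, mul_sum]
    congr 1
    exact sum_congr rfl fun l _ => by ring
  rw [e, abs_mul]
  calc |c| * |F t - ∑ l ∈ Λ, a l * ∏ j, t j ^ l j| ≤ (|c| + 1) * (η / (|c| + 1)) :=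
        mul_le_mul (by linarith) (h2 t ht) (abs_nonneg _) (by positivity)
    _ = η := by field_simp

theorem Ap.lim {F : (Fin m → ℝ) → ℝ} (h : ∀ δ : ℝ, 0 < δ → ∃ G : (Fin m → ℝ) → ℝ, Ap S N G ∧
    ∀ t : Fin m → ℝ, (∀ j, |t j| ≤ N) → |F t - G t| ≤ δ) : Ap S N F := by
  intro η hη
  obtain ⟨G, hG, h1⟩ := h (η / 2) (by positivity)
  obtain ⟨Λ, a, h2, h3⟩ := hG (η / 2) (by positivity)
  refine ⟨Λ, a, h2, fun t ht => ?_⟩
  have h4 := h1 t ht
  have h5 := h3 t ht
  rw [abs_le] at h4 h5 ⊢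
  constructor <;> linarith [h4.1, h4.2, h5.1, h5.2]

theorem Ap.sum {ι : Type*} (s : Finset ι) {F : ι → (Fin m → ℝ) → ℝ} (h : ∀ i ∈ s, Ap S N (F i)) :
    Ap S N (fun t => ∑ i ∈ s, F i t) := by
  classical
  induction s using Finset.induction_on with
  | empty => simpa using Ap.zero
  | insert i s hi ih =>
    have h1 := (h i (mem_insert_self _ _)).add (ih fun k hk => h k (mem_insert_of_mem hk))
    refine fun η hη => ?_
    obtain ⟨Λ, a, h2, h3⟩ := h1 η hη
    refine ⟨Λ, a, h2, fun t ht => ?_⟩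
    simp only [sum_insert hi]
    exact h3 t ht

theorem Ap.congr {F G : (Fin m → ℝ) → ℝ} (hF : Ap S N F) (h : ∀ t, G t = F t) : Ap S N G := by
  have : G = F := funext h
  rw [this]
  exact hF

theorem prod_update {l : Fin m → ℕ} (j : Fin m) (k : ℕ) (t : Fin m → ℝ) :
    ∏ i, t i ^ (Function.update l j k) i = t j ^ k * ∏ i ∈ univ.erase j, t i ^ l i := by
  classical
  rw [← mul_prod_erase univ _ (mem_univ j), Function.update_self]
  congr 1
  refine prod_congr rfl fun i hi => ?_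
  rw [Function.update_of_ne (ne_of_mem_erase hi)]

theorem Ap.monomial (hS : IsMuntzSet S) (T : Finset (Fin m)) : ∀ r : Fin m → ℕ,
    (∀ j, j ∉ T → r j = 0 ∨ r j ∈ S) → Ap S N (fun t : Fin m → ℝ => ∏ j, t j ^ r j) := by
  classical
  induction T using Finset.induction_on with
  | empty => exact fun r hr => Ap.mono fun j => hr j (notMem_empty _)
  | insert j T hj ih =>
    intro r hr
    refine Ap.lim fun δ hδ => ?_
    set C : ℝ := (N : ℝ) ^ (∑ i ∈ univ.erase j, r i) with hC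
    have hC0 : 0 ≤ C := by positivity
    obtain ⟨Λ, a, h1, h2⟩ := one_var hS N (r j) (η := δ / (C + 1)) (by positivity)
    refine ⟨fun t => ∑ l ∈ Λ, a l * ∏ i, t i ^ (Function.update r j l) i, ?_, fun t ht => ?_⟩
    · refine Ap.sum Λ fun l hl => (ih _ fun i hi => ?_).const_mul _
      by_cases hij : i = j
      · rw [hij, Function.update_self]
        exact h1 l hl
      · rw [Function.update_of_ne hij]
        exact hr i fun h => (mem_insert.1 h).elim hij hi
    · have e1 : ∏ i, t i ^ r i = t j ^ r j * ∏ i ∈ univ.erase j, t i ^ r i :=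
        (mul_prod_erase univ _ (mem_univ j)).symm
      have e2 : ∑ l ∈ Λ, a l * ∏ i, t i ^ (Function.update r j l) i =
          (∑ l ∈ Λ, a l * t j ^ l) * ∏ i ∈ univ.erase j, t i ^ r i := by
        rw [sum_mul]
        refine sum_congr rfl fun l _ => ?_
        rw [prod_update]
        ring
      simp only
      rw [e1, e2, ← sub_mul, abs_mul]
      have h3 : |∏ i ∈ univ.erase j, t i ^ r i| ≤ C := by
        rw [abs_prod, hC, ← prod_pow_eq_pow_sum]
        refine prod_le_prod (fun _ _ => abs_nonneg _) fun i _ => ?_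
        rw [abs_pow]
        exact pow_le_pow_left₀ (abs_nonneg _) (ht i) _
      calc |t j ^ r j - ∑ l ∈ Λ, a l * t j ^ l| * |∏ i ∈ univ.erase j, t i ^ r i|
          ≤ (δ / (C + 1)) * (C + 1) :=
            mul_le_mul (h2 _ (ht j)) (by linarith) (abs_nonneg _) (by positivity)
        _ = δ := by field_simp

/-- the cube -/
abbrev Cube (m N : ℕ) : Set (Fin m → ℝ) := {t | ∀ j, |t j| ≤ N}

theorem cube_compact : IsCompact (Cube m N) := by
  have h : Cube m N = Set.pi Set.univ fun _ => Set.Icc (-(N : ℝ)) N := by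
    ext t
    simp only [Cube, Set.mem_ofPred_eq, Set.mem_pi, Set.mem_univ, forall_true_left, Set.mem_Icc,
      abs_le]
  rw [h]
  exact isCompact_univ_pi fun _ => isCompact_Icc

/-- the coordinates -/
noncomputable def crd (j : Fin m) : C(Cube m N, ℝ) :=
  ⟨fun t => t.1 j, (continuous_apply j).comp continuous_subtype_val⟩

theorem adjoin_mono {f : C(Cube m N, ℝ)}
    (hf : f ∈ Submonoid.closure (Set.range (crd : Fin m → C(Cube m N, ℝ)))) :
    ∃ r : Fin m → ℕ, ∀ t : Cube m N, f t = ∏ j, t.1 j ^ r j := by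
  classical
  induction hf using Submonoid.closure_induction with
  | mem x hx =>
    obtain ⟨j, rfl⟩ := hx
    refine ⟨fun i => if i = j then 1 else 0, fun t => ?_⟩
    rw [prod_eq_single j]
    · simp only [if_true, pow_one]
      rfl
    · intro i _ hi
      simp only [if_neg hi, pow_zero]
    · intro h
      exact absurd (mem_univ j) h
  | one => exact ⟨fun _ => 0, fun t => by simp⟩
  | mul x y _ _ hx hy =>
    obtain ⟨r, hr⟩ := hx
    obtain ⟨r', hr'⟩ := hy
    refine ⟨fun j => r j + r' j, fun t => ?_⟩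
    rw [ContinuousMap.mul_apply, hr, hr', ← prod_mul_distrib]
    exact prod_congr rfl fun j _ => (pow_add _ _ _).symm

/-- a function on the cube is approximated -/
def ApC (S : Set ℕ) (f : C(Cube m N, ℝ)) : Prop :=
  ∃ F : (Fin m → ℝ) → ℝ, Ap S N F ∧ ∀ t : Cube m N, f t = F t.1

theorem apc_adjoin (hS : IsMuntzSet S) {f : C(Cube m N, ℝ)}
    (hf : f ∈ Algebra.adjoin ℝ (Set.range (crd : Fin m → C(Cube m N, ℝ)))) : ApC S f := by
  have h1 : f ∈ Submodule.span ℝ ((Submonoid.closure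
      (Set.range (crd : Fin m → C(Cube m N, ℝ))) : Submonoid C(Cube m N, ℝ)) :
      Set C(Cube m N, ℝ)) := by
    rw [← Algebra.adjoin_eq_span]
    exact hf
  induction h1 using Submodule.span_induction with
  | mem x hx =>
    obtain ⟨r, hr⟩ := adjoin_mono hx
    exact ⟨_, Ap.monomial hS univ r fun j hj => absurd (mem_univ j) hj, hr⟩
  | zero => exact ⟨_, Ap.zero, fun t => rfl⟩
  | add x y hx hy h1 h2 =>
    have hx' : x ∈ Algebra.adjoin ℝ (Set.range (crd : Fin m → C(Cube m N, ℝ))) := by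
      have : x ∈ (Subalgebra.toSubmodule
          (Algebra.adjoin ℝ (Set.range (crd : Fin m → C(Cube m N, ℝ))))) := by
        rw [Algebra.adjoin_eq_span]; exact hx
      exact this
    have hy' : y ∈ Algebra.adjoin ℝ (Set.range (crd : Fin m → C(Cube m N, ℝ))) := by
      have : y ∈ (Subalgebra.toSubmodule
          (Algebra.adjoin ℝ (Set.range (crd : Fin m → C(Cube m N, ℝ))))) := by
        rw [Algebra.adjoin_eq_span]; exact hy
      exact this
    obtain ⟨F, h3, h4⟩ := h1 hx'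
    obtain ⟨G, h5, h6⟩ := h2 hy'
    exact ⟨_, h3.add h5, fun t => by rw [ContinuousMap.add_apply, h4, h6]⟩
  | smul c x hx h1 =>
    have hx' : x ∈ Algebra.adjoin ℝ (Set.range (crd : Fin m → C(Cube m N, ℝ))) := by
      have : x ∈ (Subalgebra.toSubmodule
          (Algebra.adjoin ℝ (Set.range (crd : Fin m → C(Cube m N, ℝ))))) := by
        rw [Algebra.adjoin_eq_span]; exact hx
      exact this
    obtain ⟨F, h3, h4⟩ := h1 hx'
    exact ⟨_, h3.const_mul c, fun t => by rw [ContinuousMap.smul_apply, h4, smul_eq_mul]⟩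

/-- **Approximation of continuous functions.** -/
theorem approx (hS : IsMuntzSet S) (m N : ℕ) {F : (Fin m → ℝ) → ℝ} (hF : Continuous F) :
    Ap S N F := by
  haveI : CompactSpace (Cube m N) := isCompact_iff_compactSpace.1 cube_compact
  refine Ap.lim fun δ hδ => ?_
  have h1 : (Algebra.adjoin ℝ (Set.range (crd : Fin m → C(Cube m N, ℝ)))).topologicalClosure =
      ⊤ := by
    refine ContinuousMap.subalgebra_topologicalClosure_eq_top_of_separatesPoints _ ?_
    intro s t hst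
    obtain ⟨j, hj⟩ : ∃ j, s.1 j ≠ t.1 j := by
      by_contra h
      push Not at h
      exact hst (Subtype.ext (funext h))
    exact ⟨_, ⟨crd j, Algebra.subset_adjoin ⟨j, rfl⟩, rfl⟩, hj⟩
  set f : C(Cube m N, ℝ) := ⟨fun t => F t.1, hF.comp continuous_subtype_val⟩ with hf
  have h2 : f ∈ (Algebra.adjoin ℝ (Set.range (crd : Fin m → C(Cube m N, ℝ)))).topologicalClosure := by
    rw [h1]
    exact Algebra.mem_top
  have h3 : f ∈ closure ((Algebra.adjoin ℝ (Set.range (crd : Fin m → C(Cube m N, ℝ))) :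
      Subalgebra ℝ C(Cube m N, ℝ)) : Set C(Cube m N, ℝ)) := h2
  obtain ⟨g, h4, h5⟩ := Metric.mem_closure_iff.1 h3 δ hδ
  obtain ⟨G, h6, h7⟩ := apc_adjoin hS h4
  refine ⟨G, h6, fun t ht => ?_⟩
  have h8 := (ContinuousMap.norm_coe_le_norm (f - g) ⟨t, ht⟩)
  rw [dist_eq_norm] at h5
  rw [Real.norm_eq_abs, ContinuousMap.sub_apply, h7 ⟨t, ht⟩] at h8
  exact h8.trans h5.le

end Pool.Agent.U544.SC
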