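import Pool.Agent.TH553.ST.Taub3
import Pool.Agent.W353.L1.Core0
import Pool.Agent.U544.SC.Alg

/-! The sizes of the `L`-functions and the mean values. -/

set_option autoImplicit false

namespace Pool.Agent.U544.SC

open Complex Filter Topology ComplexConjugate NumberField IsDedekindDomain
  Pool.Agent.W540.BE Pool.Agent.TH553.ST
open Pool.Agent.H341R2 (lam lam_tendsto)

section
variable {K : Type} [Field K] [NumberField K] {N m : ℕ}
  {u : HeightOneSpectrum (𝓞 K) → Fin N → ℂ}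

/-- the weights, enumerated -/
noncomputable def al (u : HeightOneSpectrum (𝓞 K) → Fin N → ℂ) (l : Fin m → ℕ)
    (v : HeightOneSpectrum (𝓞 K)) : Fin (Fintype.card (Ix N m l)) → ℂ :=
  fun j => wgt (u v) ((Fintype.equivFin (Ix N m l)).symm j)

/-- the trace -/
noncomputable def trc (u : HeightOneSpectrum (𝓞 K) → Fin N → ℂ) (l : Fin m → ℕ)
    (v : HeightOneSpectrum (𝓞 K)) : ℝ := ∏ j, coef m (u v) j ^ l j

theorem al_norm (hu : IsSelfDualFamily u) (l : Fin m → ℕ) (v : HeightOneSpectrum (𝓞 K))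
    (j : Fin (Fintype.card (Ix N m l))) : ‖al u l v j‖ = 1 := norm_wgt (hu v).1 _

theorem al_sum (hu : IsSelfDualFamily u) (l : Fin m → ℕ) (v : HeightOneSpectrum (𝓞 K)) :
    ∑ j, al u l v j = (trc u l v : ℂ) := by
  have h1 : ∑ j, al u l v j = ∑ f : Ix N m l, wgt (u v) f :=
    Fintype.sum_equiv (Fintype.equivFin (Ix N m l)).symm _ _ fun j => rfl
  rw [h1]
  exact sum_wgt_real l (hu v).2

theorem LF_eq (l : Fin m → ℕ) (s : ℂ) : LF u l s =
    ∏' v, (∏ j, (1 - al u l v j * ((nm K v : ℕ) : ℂ) ^ (-s)))⁻¹ := by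
  unfold LF
  refine tprod_congr fun v => ?_
  congr 1
  exact Fintype.prod_equiv (Fintype.equivFin (Ix N m l)) _ _ fun f => by
    unfold al
    rw [Equiv.symm_apply_apply]
    rfl

theorem trc_le (hu : IsSelfDualFamily u) (l : Fin m → ℕ) (v : HeightOneSpectrum (𝓞 K)) :
    |trc u l v| ≤ ∏ j, ((2 ^ N : ℕ) : ℝ) ^ l j := by
  unfold trc
  rw [Finset.abs_prod]
  refine Finset.prod_le_prod (fun _ _ => abs_nonneg _) fun j _ => ?_
  rw [abs_pow]
  exact pow_le_pow_left₀ (abs_nonneg _) (abs_coef_le (hu v).1 j) _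

theorem cpow_real (v : HeightOneSpectrum (𝓞 K)) (ε : ℝ) :
    ((nm K v : ℕ) : ℂ) ^ (-(1 + (ε : ℂ))) = (((nm K v : ℝ) ^ (-(1 + ε)) : ℝ) : ℂ) := by
  rw [Complex.ofReal_cpow (Nat.cast_nonneg _)]
  push_cast
  rfl

theorem LS_real {T : HeightOneSpectrum (𝓞 K) → ℝ} {B : ℝ} (hT : ∀ v, |T v| ≤ B) {ε : ℝ}
    (hε : 0 < ε) : LSeries (nf fun v => (T v : ℂ)) (1 + (ε : ℂ)) = ((EP (nm K) ε T : ℝ) : ℂ) := by
  rw [← tsum_eq_LSeries (B := B) (fun v => by rw [Complex.norm_real]; exact hT v)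
    (by simpa using hε)]
  unfold EP
  rw [Complex.ofReal_tsum]
  refine tsum_congr fun v => ?_
  rw [cpow_real]
  push_cast
  rfl

theorem path (ε₀ : ℝ) : Tendsto (fun ε : ℝ => (1 : ℂ) + (ε : ℂ)) (𝓝[>] 0) (𝓝 1) := by
  have h : Continuous fun ε : ℝ => (1 : ℂ) + (ε : ℂ) := by fun_prop
  have := h.tendsto 0
  simp only [Complex.ofReal_zero, add_zero] at this
  exact this.mono_left nhdsWithin_le_nhds

/-- the logarithm of the `L`-function -/
theorem log_LF (hu : IsSelfDualFamily u) (l : Fin m → ℕ) :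
    (∀ ε : ℝ, 0 < ε → LF u l (1 + ε) ≠ 0) ∧
    ∃ C : ℝ, ∀ᶠ ε : ℝ in 𝓝[>] 0, |EP (nm K) ε (trc u l) - Real.log ‖LF u l (1 + ε)‖| ≤ C := by
  have hα := al_norm hu l
  have hexp : ∀ ε : ℝ, 0 < ε → LF u l (1 + ε) =
      cexp (((EP (nm K) ε (trc u l) : ℝ) : ℂ) + Rt (al u l) (1 + ε)) := by
    intro ε hε
    rw [LF_eq, L_exp hα (by simpa using hε)]
    congr 2
    rw [← LS_real (trc_le hu l) hε]
    congr 2
    funext v
    exact al_sum hu l v
  refine ⟨fun ε hε => ?_, ‖Rt (al u l) 1‖ + 1, ?_⟩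
  · rw [hexp ε hε]
    exact Complex.exp_ne_zero _
  · have h1mem : (1 : ℂ) ∈ Hp := by
      have : (3 / 4 : ℝ) < (1 : ℂ).re := by norm_num
      exact this
    have hc : ContinuousAt (Rt (al u l)) 1 :=
      ((diff_Rt hα).differentiableAt (isOpen_Hp.mem_nhds h1mem)).continuousAt
    have h2 := (hc.tendsto.comp (path 1)).norm
    filter_upwards [h2.eventually_lt_const (lt_add_one _), self_mem_nhdsWithin] with ε h3 h4
    have hε : (0 : ℝ) < ε := h4
    rw [hexp ε hε, Complex.norm_exp, Real.log_exp, Complex.add_re, Complex.ofReal_re,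
      sub_add_cancel_left, abs_neg]
    exact (Complex.abs_re_le_norm _).trans h3.le

theorem EP_bound {T : HeightOneSpectrum (𝓞 K) → ℝ} {B : ℝ} (hT : ∀ v, |T v| ≤ B) :
    ∀ᶠ ε : ℝ in 𝓝[>] 0, |EP (nm K) ε T| ≤ (2 * |B|) * lam ε := by
  filter_upwards [(EP_one K).eventually_lt_const (by norm_num : (1 : ℝ) < 2),
    lam_tendsto.eventually_gt_atTop 0, self_mem_nhdsWithin] with ε h1 h2 h3
  have hε : (0 : ℝ) < ε := h3
  rw [div_lt_iff₀ h2] at h1
  have h4 := Pool.Agent.W353.L1.EP_abs_le (F := K) (φ := T) (ψ := fun _ => |B|) (B := |B|)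
    (fun _ => by rw [abs_abs]) (fun v => (hT v).trans (le_abs_self B)) hε
  have h5 : EP (nm K) ε (fun _ => |B|) = |B| * EP (nm K) ε fun _ => 1 := by
    rw [← EP_const_mul]
    simp
  rw [h5] at h4
  refine h4.trans ?_
  have := mul_le_mul_of_nonneg_left h1.le (abs_nonneg B)
  linarith

/-- the two normalisations of the mean value -/
theorem norm_EP {T : HeightOneSpectrum (𝓞 K) → ℝ} {B : ℝ} (hT : ∀ v, |T v| ≤ B) :
    Tendsto (fun ε : ℝ => EP (nm K) ε T / lam ε - EP (nm K) ε T / Real.log (1 / ε)) (𝓝[>] 0)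
      (𝓝 0) :=
  size_compare (C := 0) (EP_bound hT) (Eventually.of_forall fun ε => by
    rw [sub_self, abs_zero])

theorem mean_size (hu : IsSelfDualFamily u) (l : Fin m → ℕ) :
    Tendsto (fun ε : ℝ => EP (nm K) ε (trc u l) / Real.log (1 / ε) - siz u l ε) (𝓝[>] 0)
      (𝓝 0) := by
  obtain ⟨-, C, hC⟩ := log_LF hu l
  have h1 := size_compare (EP_bound (trc_le hu l)) hC
  have h2 := h1.sub (norm_EP (trc_le hu l))
  rw [sub_zero] at h2
  refine h2.congr fun ε => ?_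
  unfold siz
  ring

theorem mean_one : Tendsto (fun ε : ℝ => (EP (nm K) ε fun _ => 1) / Real.log (1 / ε)) (𝓝[>] 0)
    (𝓝 1) := by
  have h1 := (EP_one K).sub (norm_EP (K := K) (T := fun _ => 1) (B := 1) fun _ => by simp)
  rw [sub_zero] at h1
  refine h1.congr fun ε => ?_
  ring

theorem dens_eq (F : (Fin m → ℝ) → ℝ) (ε : ℝ) :
    dens u F ε = (EP (nm K) ε fun v => F (coef m (u v))) / Real.log (1 / ε) := rfl

theorem log_pos_ev : ∀ᶠ ε : ℝ in 𝓝[>] 0, 0 < Real.log (1 / ε) := by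
  have hlog : Tendsto (fun ε : ℝ => Real.log (1 / ε)) (𝓝[>] 0) atTop := by
    have h1 := tendsto_neg_atBot_atTop.comp Real.tendsto_log_nhdsGT_zero
    refine h1.congr fun ε => ?_
    rw [one_div, Real.log_inv]
    rfl
  exact hlog.eventually_gt_atTop 0

/-- **The relation between a mean value and the sizes.** -/
theorem mean_relation (hu : IsSelfDualFamily u) {F : (Fin m → ℝ) → ℝ} {Λ : Finset (Fin m → ℕ)}
    {a : (Fin m → ℕ) → ℝ} {δ : ℝ}
    (h : ∀ t : Fin m → ℝ, (∀ j, |t j| ≤ ((2 ^ N : ℕ) : ℝ)) →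
      |F t - ∑ l ∈ Λ, a l * ∏ j, t j ^ l j| ≤ δ) {η : ℝ} (hη : 0 < η) :
    ∀ᶠ ε : ℝ in 𝓝[>] 0, |dens u F ε - ∑ l ∈ Λ, a l * siz u l ε| ≤ δ + η := by
  classical
  have hδ0 : 0 ≤ δ := (abs_nonneg _).trans (h 0 fun j => by simp)
  have hcf : ∀ v j, |coef m (u v) j| ≤ ((2 ^ N : ℕ) : ℝ) := fun v j => abs_coef_le (hu v).1 j
  set B : ℝ := ∑ l ∈ Λ, |a l| * ∏ j, ((2 ^ N : ℕ) : ℝ) ^ l j with hB
  have hsum : ∀ v, |∑ l ∈ Λ, a l * trc u l v| ≤ B := fun v => by
    refine (Finset.abs_sum_le_sum_abs _ _).trans (Finset.sum_le_sum fun l _ => ?_)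
    rw [abs_mul]
    exact mul_le_mul_of_nonneg_left (trc_le hu l v) (abs_nonneg _)
  have hdif : ∀ v, |F (coef m (u v)) - ∑ l ∈ Λ, a l * trc u l v| ≤ δ := fun v => h _ (hcf v)
  have hFb : ∀ v, |F (coef m (u v))| ≤ δ + B := fun v => by
    have h1 := hdif v
    have h2 := hsum v
    rw [abs_le] at h1 h2 ⊢
    constructor <;> linarith [h1.1, h1.2, h2.1, h2.2]
  have h1 : Tendsto (fun ε : ℝ => ∑ l ∈ Λ, a l * (EP (nm K) ε (trc u l) / Real.log (1 / ε) -
      siz u l ε)) (𝓝[>] 0) (𝓝 0) := by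
    have h2 := tendsto_finsetSum (f := fun l ε => a l * (EP (nm K) ε (trc u l) /
      Real.log (1 / ε) - siz u l ε)) (a := fun l => a l * 0) Λ
      fun l _ => (mean_size hu l).const_mul (a l)
    simpa using h2
  have hA : Tendsto (fun ε : ℝ => δ * ((EP (nm K) ε fun _ => 1) / Real.log (1 / ε))) (𝓝[>] 0)
      (𝓝 (δ * 1)) := (mean_one (K := K)).const_mul _
  rw [mul_one] at hA
  filter_upwards [(Metric.tendsto_nhds.1 h1) (η / 2) (by positivity),
    (Metric.tendsto_nhds.1 hA) (η / 2) (by positivity), log_pos_ev,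
    self_mem_nhdsWithin] with ε h2 hA' h3 h4
  have hε : (0 : ℝ) < ε := h4
  rw [Real.dist_eq, sub_zero] at h2
  rw [Real.dist_eq] at hA'
  have hS : (EP (nm K) ε fun v => ∑ l ∈ Λ, a l * trc u l v) =
      ∑ l ∈ Λ, a l * EP (nm K) ε (trc u l) := by
    rw [EP_sum normSys hε Λ (fun l v => a l * trc u l v)
      (fun l => |a l| * ∏ j, ((2 ^ N : ℕ) : ℝ) ^ l j) (by
        intro k _ v
        rw [abs_mul]
        exact mul_le_mul_of_nonneg_left (trc_le hu k v) (abs_nonneg _))]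
    exact Finset.sum_congr rfl fun k _ => EP_const_mul _ _
  have hD : (EP (nm K) ε fun v => F (coef m (u v)) + (-1) * ∑ l ∈ Λ, a l * trc u l v) =
      (EP (nm K) ε fun v => F (coef m (u v))) - ∑ l ∈ Λ, a l * EP (nm K) ε (trc u l) := by
    rw [EP_add normSys hε hFb (B' := B) (fun v => by
      rw [abs_mul, abs_neg, abs_one, one_mul]
      exact hsum v), EP_const_mul, hS]
    ring
  have h5 : |EP (nm K) ε fun v => F (coef m (u v)) + (-1) * ∑ l ∈ Λ, a l * trc u l v| ≤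
      δ * EP (nm K) ε fun _ => 1 := by
    rw [← EP_const_mul]
    refine Pool.Agent.W353.L1.EP_abs_le (B := δ) (fun v => ?_) (fun v => ?_) hε
    · rw [mul_one, abs_of_nonneg hδ0]
    · rw [mul_one, neg_one_mul, ← sub_eq_add_neg]
      exact hdif v
  rw [hD] at h5
  rw [dens_eq]
  set P := (EP (nm K) ε fun v => F (coef m (u v)))
  set Q := ∑ l ∈ Λ, a l * EP (nm K) ε (trc u l) with hQ
  have h7 : ∑ l ∈ Λ, a l * (EP (nm K) ε (trc u l) / Real.log (1 / ε) - siz u l ε) =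
      Q / Real.log (1 / ε) - ∑ l ∈ Λ, a l * siz u l ε := by
    rw [hQ, Finset.sum_div, ← Finset.sum_sub_distrib]
    refine Finset.sum_congr rfl fun k _ => ?_
    ring
  rw [h7] at h2
  have h8 : |(P - Q) / Real.log (1 / ε)| ≤ δ * ((EP (nm K) ε fun _ => 1) / Real.log (1 / ε)) := by
    rw [abs_div, abs_of_pos h3, ← mul_div_assoc]
    exact div_le_div_of_nonneg_right h5 h3.le
  have h9 := (abs_lt.1 hA').2
  have h10 : (P - Q) / Real.log (1 / ε) = P / Real.log (1 / ε) - Q / Real.log (1 / ε) :=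
    sub_div _ _ _
  rw [h10] at h8
  rw [abs_le] at h8 ⊢
  rw [abs_lt] at h2
  constructor <;> linarith [h8.1, h8.2, h2.1, h2.2]

end

end Pool.Agent.U544.SC
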