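import Pool.Agent.U544.SC.Approx
import Mathlib.NumberTheory.NumberField.Basic

/-!
# The characteristic polynomials of Frobenius and a sparse set of `L`-functions: definitions

`K` is a number field and `u v = (u_1(v), …, u_N(v))` are complex numbers of absolute value one, one
vector for each prime `v` of `K`; the multiset of its entries is stable under complex conjugation.  For an
abelian variety `A` over `K` of dimension `g` (`N = 2 g`) these are the eigenvalues of the element `x_v` of
the Sato-Tate group `ST(A) ⊆ USp(2 g)` (at the finitely many bad primes: of any element).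
-/

set_option autoImplicit false

namespace Pool.Agent.U544.SC

open NumberField IsDedekindDomain ComplexConjugate

section
variable {N : ℕ}

/-- The elementary symmetric function of degree `j` of `u_1, …, u_N`, the trace of `Λ^j` of a matrix with
these eigenvalues. -/
noncomputable def esy (u : Fin N → ℂ) (j : ℕ) : ℂ :=
  ∑ s : {s : Finset (Fin N) // s.card = j}, ∏ k ∈ s.1, u k

/-- The traces of the first `m` exterior powers, up to signs the coefficients of the characteristic
polynomial (they are real in the situation considered here). -/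
noncomputable def coef (m : ℕ) (u : Fin N → ℂ) : Fin m → ℝ := fun j => (esy u (j + 1)).re

/-- A basis of the tensor product `V_l = ⊗_j (Λ^j V)^{⊗ l_j}`, `j = 1, …, m`: for every `j` a sequence of
`l_j` subsets of `{1, …, N}` with `j` elements. -/
abbrev Ix (N m : ℕ) (l : Fin m → ℕ) : Type :=
  ∀ j : Fin m, Fin (l j) → {s : Finset (Fin N) // s.card = (j : ℕ) + 1}

/-- The eigenvalue on the basis element `f` of `V_l`. -/
noncomputable def wgt {m : ℕ} {l : Fin m → ℕ} (u : Fin N → ℂ) (f : Ix N m l) : ℂ :=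
  ∏ j, ∏ a, ∏ k ∈ (f j a).1, u k

/-- The `L`-function of `V_l = ⊗_j (Λ^j V)^{⊗ l_j}`, the Euler product
`L_l(s) = ∏_v det(1 - x_v q_v^{-s} | V_l)⁻¹`; for `l = 0` it is the zeta function of `K`. -/
noncomputable def LF {K : Type} [Field K] [NumberField K] {m : ℕ}
    (u : HeightOneSpectrum (𝓞 K) → Fin N → ℂ) (l : Fin m → ℕ) (s : ℂ) : ℂ :=
  ∏' v : HeightOneSpectrum (𝓞 K),
    (∏ f : Ix N m l, (1 - wgt (u v) f * (Ideal.absNorm v.asIdeal : ℂ) ^ (-s)))⁻¹

/-- `log |L_l(1 + ε)| / log (1/ε)`. -/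
noncomputable def siz {K : Type} [Field K] [NumberField K] {m : ℕ}
    (u : HeightOneSpectrum (𝓞 K) → Fin N → ℂ) (l : Fin m → ℕ) (ε : ℝ) : ℝ :=
  Real.log ‖LF u l (1 + ε)‖ / Real.log (1 / ε)

/-- `(∑_v F(c(v)) q_v^{-1-ε}) / log (1/ε)`, `c(v)` the vector of the traces of the exterior powers; its
limit for `ε → 0+` is the mean value of `F(c(v))` in the sense of analytic density. -/
noncomputable def dens {K : Type} [Field K] [NumberField K] {m : ℕ}
    (u : HeightOneSpectrum (𝓞 K) → Fin N → ℂ) (F : (Fin m → ℝ) → ℝ) (ε : ℝ) : ℝ :=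
  (∑' v : HeightOneSpectrum (𝓞 K), F (coef m (u v)) *
    (Ideal.absNorm v.asIdeal : ℝ) ^ (-(1 + ε))) / Real.log (1 / ε)

/-- The mean value of `F(c(v))` over the primes `v` with `q_v ≤ n`. -/
noncomputable def natAvg {K : Type} [Field K] [NumberField K] {m : ℕ}
    (u : HeightOneSpectrum (𝓞 K) → Fin N → ℂ) (F : (Fin m → ℝ) → ℝ) (n : ℕ) : ℝ :=
  (∑ᶠ v ∈ {v : HeightOneSpectrum (𝓞 K) | Ideal.absNorm v.asIdeal ≤ n}, F (coef m (u v))) /
    {v : HeightOneSpectrum (𝓞 K) | Ideal.absNorm v.asIdeal ≤ n}.ncard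

/-- The numbers `u_k(v)` have absolute value one, and for every `v` they are permuted by complex
conjugation. -/
def IsSelfDualFamily {K : Type} [Field K] [NumberField K]
    (u : HeightOneSpectrum (𝓞 K) → Fin N → ℂ) : Prop :=
  ∀ v, (∀ k, ‖u v k‖ = 1) ∧ ∃ σ : Equiv.Perm (Fin N), ∀ k, conj (u v k) = u v (σ k)

/-- The exponents allowed: each `l_j` is zero or an element of `S`. -/
def Allowed (S : Set ℕ) {m : ℕ} (l : Fin m → ℕ) : Prop := ∀ j, l j = 0 ∨ l j ∈ S

/-- `L_l / ζ_K^k` continues holomorphically and without zeros to a neighbourhood of every point of the line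
`Re s = 1`. -/
def HasHolomorphicQuotient {K : Type} [Field K] [NumberField K] {m : ℕ}
    (u : HeightOneSpectrum (𝓞 K) → Fin N → ℂ) (l : Fin m → ℕ) (k : ℕ) : Prop :=
  ∀ τ : ℝ, ∃ Λ : ℂ → ℂ, AnalyticAt ℂ Λ (1 + τ * Complex.I) ∧ Λ (1 + τ * Complex.I) ≠ 0 ∧
    ∀ᶠ s in nhds ((1 : ℂ) + τ * Complex.I), 1 < s.re →
      LF u l s = Λ s * (∏' v : HeightOneSpectrum (𝓞 K),
        (1 - (Ideal.absNorm v.asIdeal : ℂ) ^ (-s))⁻¹) ^ k

end

end Pool.Agent.U544.SC
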