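import Pool.Agent.U544.SC.Nat

/-! Laws on the cube. -/

set_option autoImplicit false

namespace Pool.Agent.U544.SC

open Filter Topology NumberField IsDedekindDomain MeasureTheory Pool.Agent.TH553.ST

variable {m N : ℕ}

/-- continuous functions are integrable -/
theorem integ {ν : Measure (Fin m → ℝ)} [IsProbabilityMeasure ν] {M : ℕ}
    (hν : ∀ᵐ t ∂ν, ∀ j, |t j| ≤ (M : ℝ)) {F : (Fin m → ℝ) → ℝ} (hF : Continuous F) :
    Integrable F ν := by
  obtain ⟨C, hC⟩ := (cube_compact (m := m) (N := M)).exists_bound_of_continuousOn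
    hF.continuousOn
  exact (integrable_const C).mono' hF.aestronglyMeasurable (hν.mono fun t ht => hC t ht)

theorem mono_cont (l : Fin m → ℕ) : Continuous fun t : Fin m → ℝ => ∏ j, t j ^ l j :=
  continuous_finsetProd _ fun j _ => (continuous_apply j).pow _

/-- the integrals -/
theorem integral_close {ν : Measure (Fin m → ℝ)} [IsProbabilityMeasure ν] {M : ℕ}
    (hν : ∀ᵐ t ∂ν, ∀ j, |t j| ≤ (M : ℝ)) {F : (Fin m → ℝ) → ℝ} (hF : Continuous F)
    {Λ : Finset (Fin m → ℕ)} {a : (Fin m → ℕ) → ℝ} {δ : ℝ}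
    (h : ∀ t : Fin m → ℝ, (∀ j, |t j| ≤ (M : ℝ)) → |F t - ∑ l ∈ Λ, a l * ∏ j, t j ^ l j| ≤ δ) :
    |∫ t, F t ∂ν - ∑ l ∈ Λ, a l * ∫ t, ∏ j, t j ^ l j ∂ν| ≤ δ := by
  have h1 : ∑ l ∈ Λ, a l * ∫ t, ∏ j, t j ^ l j ∂ν = ∫ t, ∑ l ∈ Λ, a l * ∏ j, t j ^ l j ∂ν := by
    rw [integral_finsetSum _ fun l _ => (integ hν (mono_cont l)).const_mul _]
    exact Finset.sum_congr rfl fun l _ => (integral_const_mul _ _).symm
  have hc : Continuous fun t : Fin m → ℝ => ∑ l ∈ Λ, a l * ∏ j, t j ^ l j :=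
    continuous_finsetSum _ fun l _ => continuous_const.mul (mono_cont l)
  rw [h1, ← integral_sub (integ hν hF) (integ hν hc), ← Real.norm_eq_abs]
  have h2 := norm_integral_le_of_norm_le_const (μ := ν) (C := δ)
    (f := fun t => F t - ∑ l ∈ Λ, a l * ∏ j, t j ^ l j) (hν.mono fun t ht => h t ht)
  simpa using h2

section
variable {K : Type} [Field K] [NumberField K] {u : HeightOneSpectrum (𝓞 K) → Fin N → ℂ}
  {S : Set ℕ}

/-- the mean value of a monomial -/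
theorem dens_mono (hu : IsSelfDualFamily u) (l : Fin m → ℕ) :
    Tendsto (fun ε => dens u (fun t : Fin m → ℝ => ∏ j, t j ^ l j) ε - siz u l ε) (𝓝[>] 0)
      (𝓝 0) := mean_size hu l

theorem approx_dens (hS : IsMuntzSet S) {F : (Fin m → ℝ) → ℝ} (hF : Continuous F) {η : ℝ}
    (hη : 0 < η) : ∃ (Λ : Finset (Fin m → ℕ)) (a : (Fin m → ℕ) → ℝ),
      (∀ l ∈ Λ, Allowed S l) ∧
      (∀ t : Fin m → ℝ, (∀ j, |t j| ≤ ((2 ^ N : ℕ) : ℝ)) →
        |F t - ∑ l ∈ Λ, a l * ∏ j, t j ^ l j| ≤ η / 2) ∧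
      ∀ {K : Type} [Field K] [NumberField K] {u : HeightOneSpectrum (𝓞 K) → Fin N → ℂ},
        IsSelfDualFamily u →
        ∀ᶠ ε : ℝ in 𝓝[>] 0, |dens u F ε - ∑ l ∈ Λ, a l * siz u l ε| ≤ η := by
  obtain ⟨Λ, a, h1, h2⟩ := approx hS m (2 ^ N) hF (η / 2) (by positivity)
  refine ⟨Λ, a, h1, h2, fun hu => ?_⟩
  exact (mean_relation hu h2 (η := η / 2) (by positivity)).mono fun ε hε => by linarith

theorem sizes_tendsto {Λ : Finset (Fin m → ℕ)} {a : (Fin m → ℕ) → ℝ} {x : (Fin m → ℕ) → ℝ}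
    (h : ∀ l ∈ Λ, Tendsto (siz u l) (𝓝[>] 0) (𝓝 (x l))) :
    Tendsto (fun ε => ∑ l ∈ Λ, a l * siz u l ε) (𝓝[>] 0) (𝓝 (∑ l ∈ Λ, a l * x l)) :=
  tendsto_finsetSum Λ fun l hl => (h l hl).const_mul (a l)

/-- existence of the mean values -/
theorem exists_iff (hS : IsMuntzSet S) (hu : IsSelfDualFamily u) :
    (∀ F : (Fin m → ℝ) → ℝ, Continuous F → ∃ x : ℝ, Tendsto (dens u F) (𝓝[>] 0) (𝓝 x)) ↔
      ∀ l : Fin m → ℕ, Allowed S l → ∃ x : ℝ, Tendsto (siz u l) (𝓝[>] 0) (𝓝 x) := by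
  constructor
  · intro h l _
    obtain ⟨x, hx⟩ := h _ (mono_cont l)
    refine ⟨x, ?_⟩
    have h1 := hx.sub (dens_mono hu l)
    rw [sub_zero] at h1
    refine h1.congr fun ε => ?_
    ring
  · intro h F hF
    have hc : Cauchy (Filter.map (dens u F) (𝓝[>] 0)) := by
      rw [Metric.cauchy_iff]
      refine ⟨inferInstance, fun η hη => ?_⟩
      obtain ⟨Λ, a, h1, -, h2⟩ := approx_dens (N := N) hS hF (η := η / 5) (by positivity)
      choose! x hx using h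
      have h3 := h2 hu
      have hy := sizes_tendsto (a := a) (x := x) (u := u) (Λ := Λ) fun l hl => hx l (h1 l hl)
      set y := ∑ l ∈ Λ, a l * x l
      refine ⟨{z | |z - y| < 2 * η / 5}, ?_, fun p hp q hq => ?_⟩
      · rw [Filter.mem_map]
        filter_upwards [h3, (Metric.tendsto_nhds.1 hy) (η / 5) (by positivity)] with ε h3 h4
        rw [Real.dist_eq] at h4
        show |dens u F ε - y| < 2 * η / 5
        rw [abs_le] at h3
        rw [abs_lt] at h4 ⊢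
        constructor <;> linarith [h3.1, h3.2, h4.1, h4.2]
      · rw [Real.dist_eq]
        have hu' : |p - y| < 2 * η / 5 := hp
        have hv' : |q - y| < 2 * η / 5 := hq
        rw [abs_lt] at hu' hv' ⊢
        constructor <;> linarith [hu'.1, hu'.2, hv'.1, hv'.2]
    obtain ⟨x, hx⟩ := cauchy_iff_exists_le_nhds.1 hc
    exact ⟨x, hx⟩

variable {ν : Measure (Fin m → ℝ)} [IsProbabilityMeasure ν]
  (hν : ∀ᵐ t ∂ν, ∀ j, |t j| ≤ ((2 ^ N : ℕ) : ℝ))

include hν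

/-- the law in the sense of analytic density -/
theorem law_iff (hS : IsMuntzSet S) (hu : IsSelfDualFamily u) :
    (∀ F : (Fin m → ℝ) → ℝ, Continuous F →
        Tendsto (dens u F) (𝓝[>] 0) (𝓝 (∫ t, F t ∂ν))) ↔
      ∀ l : Fin m → ℕ, Allowed S l →
        Tendsto (siz u l) (𝓝[>] 0) (𝓝 (∫ t, ∏ j, t j ^ l j ∂ν)) := by
  constructor
  · intro h l _
    have h1 := (h _ (mono_cont l)).sub (dens_mono hu l)
    rw [sub_zero] at h1
    refine h1.congr fun ε => ?_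
    ring
  · intro h F hF
    rw [Metric.tendsto_nhds]
    intro η hη
    obtain ⟨Λ, a, h1, h2, h3⟩ := approx_dens (N := N) hS hF (η := η / 4) (by positivity)
    have h4 := integral_close hν hF h2
    have h5 := sizes_tendsto (a := a) (x := fun l => ∫ t, ∏ j, t j ^ l j ∂ν) (u := u) (Λ := Λ)
      fun l hl => h l (h1 l hl)
    filter_upwards [h3 hu, (Metric.tendsto_nhds.1 h5) (η / 4) (by positivity)] with ε h6 h7
    rw [Real.dist_eq] at h7 ⊢
    rw [abs_le] at h4 h6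
    rw [abs_lt] at h7 ⊢
    constructor <;> linarith [h4.1, h4.2, h6.1, h6.2, h7.1, h7.2]

/-- natural density -/
theorem law_nat (hS : IsMuntzSet S) (hu : IsSelfDualFamily u)
    (h : ∀ l : Fin m → ℕ, Allowed S l → ∃ k : ℕ, (k : ℝ) = ∫ t, ∏ j, t j ^ l j ∂ν ∧
      HasHolomorphicQuotient u l k) {F : (Fin m → ℝ) → ℝ} (hF : Continuous F) :
    Tendsto (natAvg u F) atTop (𝓝 (∫ t, F t ∂ν)) := by
  have key : Tendsto (mn fun v => (F (coef m (u v)) : ℂ)) atTop
      (𝓝 ((∫ t, F t ∂ν : ℝ) : ℂ)) := by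
    refine mn_unif fun ε hε => ?_
    obtain ⟨Λ, a, h1, h2, -⟩ := approx_dens (N := N) hS hF (η := 2 * ε) (by positivity)
    have e : 2 * ε / 2 = ε := by ring
    rw [e] at h2
    refine ⟨fun v => ∑ l ∈ Λ, (a l : ℂ) * (trc u l v : ℂ),
      ((∑ l ∈ Λ, a l * ∫ t, ∏ j, t j ^ l j ∂ν : ℝ) : ℂ), fun v => ?_, ?_, ?_⟩
    · have h3 := h2 (coef m (u v)) fun j => abs_coef_le (hu v).1 j
      have e2 : (F (coef m (u v)) : ℂ) - ∑ l ∈ Λ, (a l : ℂ) * (trc u l v : ℂ) =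
          ((F (coef m (u v)) - ∑ l ∈ Λ, a l * ∏ j, coef m (u v) j ^ l j : ℝ) : ℂ) := by
        unfold trc
        push_cast
        rfl
      rw [e2, Complex.norm_real]
      exact h3
    · rw [← Complex.ofReal_sub, Complex.norm_real, Real.norm_eq_abs, abs_sub_comm]
      exact integral_close hν hF h2
    · have h4 : Tendsto (fun n => ∑ l ∈ Λ, (a l : ℂ) * mn (fun v => (trc u l v : ℂ)) n) atTop
          (𝓝 (∑ l ∈ Λ, (a l : ℂ) * ((∫ t, ∏ j, t j ^ l j ∂ν : ℝ) : ℂ))) := by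
        refine tendsto_finsetSum Λ fun l hl => ?_
        obtain ⟨k, hk, hc⟩ := h l (h1 l hl)
        rw [← hk]
        have := (mn_trc hu hc).const_mul (a l : ℂ)
        simpa using this
      push_cast
      refine h4.congr fun n => ?_
      rw [mn_sum]
      exact Finset.sum_congr rfl fun l _ => (mn_mul _ _ _).symm
  have h5 := (Complex.continuous_re.tendsto _).comp key
  rw [Complex.ofReal_re] at h5
  refine h5.congr fun n => ?_
  rw [Function.comp_apply, ← natAvg_eq, Complex.ofReal_re]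

end

end Pool.Agent.U544.SC
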