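import Pool.Agent.TH553.ST.Joint
import Pool.Agent.U544.SC.Core

/-! Natural density. -/

set_option autoImplicit false

namespace Pool.Agent.U544.SC

open Complex Filter Topology ComplexConjugate NumberField IsDedekindDomain
  Pool.Agent.W540.BE Pool.Agent.TH553.ST

section
variable {K : Type} [Field K] [NumberField K] {N m : ℕ}
  {u : HeightOneSpectrum (𝓞 K) → Fin N → ℂ}

/-- the zeta function as a product -/
noncomputable def ZF (K : Type) [Field K] [NumberField K] (s : ℂ) : ℂ :=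
  ∏' v : HeightOneSpectrum (𝓞 K), (1 - (Ideal.absNorm v.asIdeal : ℂ) ^ (-s))⁻¹

theorem ZF_eq (s : ℂ) : ZF K s = ∏' v : HeightOneSpectrum (𝓞 K),
    (∏ _j : Fin 1, (1 - (1 : ℂ) * ((nm K v : ℕ) : ℂ) ^ (-s)))⁻¹ := by
  unfold ZF
  refine tprod_congr fun v => ?_
  rw [Fin.prod_univ_one, one_mul]
  rfl

theorem S_lin {t t' : HeightOneSpectrum (𝓞 K) → ℂ} {B B' : ℝ} (ht : ∀ v, ‖t v‖ ≤ B)
    (ht' : ∀ v, ‖t' v‖ ≤ B') (c : ℂ) {s : ℂ} (hs : 1 < s.re) :
    S (fun v => t v - c * t' v) s = S t s - c * S t' s := by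
  have h1 := summ_lc ht hs
  have h2 := (summ_lc ht' hs).smul c
  have e : lc (fun v => t v - c * t' v) = lc t - c • lc t' := by
    funext n
    rw [Pi.sub_apply, Pi.smul_apply, smul_eq_mul, lc_eq, lc_eq, lc_eq]
    unfold nf
    rw [Finset.sum_sub_distrib, ← Finset.mul_sum]
    ring
  unfold S
  rw [e, LSeries_sub h1 h2, LSeries_smul]

/-- **The boundary values.** -/
theorem bdry (hu : IsSelfDualFamily u) {l : Fin m → ℕ} {k : ℕ}
    (hc : HasHolomorphicQuotient u l k) {s : ℂ} (hs : 1 ≤ s.re) :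
    ∃ y, Tendsto (S fun v => (trc u l v : ℂ) - (k : ℂ) * 1) (𝓝[{s : ℂ | 1 < s.re}] s) (𝓝 y) := by
  have hα := al_norm hu l
  have hα0 : ∀ (v : HeightOneSpectrum (𝓞 K)) (j : Fin 1), ‖(fun _ _ => (1 : ℂ)) v j‖ = 1 :=
    fun _ _ => norm_one
  have hb1 : ∀ v, ‖(trc u l v : ℂ)‖ ≤ ∏ j, ((2 ^ N : ℕ) : ℝ) ^ l j := fun v => by
    rw [Complex.norm_real]
    exact trc_le hu l v
  have hb0 : ∀ _v : HeightOneSpectrum (𝓞 K), ‖(1 : ℂ)‖ ≤ (1 : ℝ) := fun _ => by rw [norm_one]
  have hbt : ∀ v, ‖(trc u l v : ℂ) - (k : ℂ) * 1‖ ≤ (∏ j, ((2 ^ N : ℕ) : ℝ) ^ l j) + k := fun v => by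
    refine (norm_sub_le _ _).trans (add_le_add (hb1 v) ?_)
    rw [mul_one, Complex.norm_natCast]
  rcases hs.eq_or_lt with h | h
  · have hs' : s = 1 + (s.im : ℝ) * I := by
      apply Complex.ext <;> simp [← h]
    obtain ⟨Λ, h1, h2, h3⟩ := hc s.im
    rw [hs']
    set s0 : ℂ := 1 + (s.im : ℝ) * I with hs0
    have hmem : s0 ∈ Hp := by
      have : (3 / 4 : ℝ) < s0.re := by rw [hs0]; norm_num
      exact this
    set α1 := al u l with hα1
    set α0 : HeightOneSpectrum (𝓞 K) → Fin 1 → ℂ := fun _ _ => 1 with hα0'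
    have hR : AnalyticAt ℂ (Rt α1) s0 := (diff_Rt hα).analyticAt (isOpen_Hp.mem_nhds hmem)
    have hR0 : AnalyticAt ℂ (Rt α0) s0 := (diff_Rt hα0).analyticAt (isOpen_Hp.mem_nhds hmem)
    have h4 : Tendsto (fun z => deriv (Rt α1) z - (k : ℂ) * deriv (Rt α0) z -
        deriv Λ z / Λ z) (𝓝[{s : ℂ | 1 < s.re}] s0)
        (𝓝 (deriv (Rt α1) s0 - (k : ℂ) * deriv (Rt α0) s0 - deriv Λ s0 / Λ s0)) :=
      ((hR.deriv.continuousAt.sub (continuousAt_const.mul hR0.deriv.continuousAt)).sub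
        (h1.deriv.continuousAt.div h1.continuousAt h2)).mono_left nhdsWithin_le_nhds
    refine ⟨_, h4.congr' ?_⟩
    have hne : ∀ᶠ z in 𝓝 s0, Λ z ≠ 0 := h1.continuousAt.eventually_ne h2
    filter_upwards [h3.eventually_nhds.filter_mono nhdsWithin_le_nhds,
      (h1.eventually_analyticAt).filter_mono nhdsWithin_le_nhds,
      hne.filter_mono nhdsWithin_le_nhds, self_mem_nhdsWithin]
      with z hz hzΛ hzne hre
    have hre' : 1 < z.re := hre
    have hL1 : ∀ s : ℂ, 1 < s.re → LF u l s =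
        ∏' v, (∏ j, (1 - α1 v j * ((nm K v : ℕ) : ℂ) ^ (-s)))⁻¹ := fun s _ => LF_eq l s
    have hL0 : ∀ s : ℂ, 1 < s.re → ZF K s =
        ∏' v, (∏ j, (1 - α0 v j * ((nm K v : ℕ) : ℂ) ^ (-s)))⁻¹ := fun s _ => ZF_eq s
    obtain ⟨hn1, hS1⟩ := S_eq hα hL1 hre'
    obtain ⟨hn0, hS0⟩ := S_eq hα0 hL0 hre'
    have hdZ : DifferentiableAt ℂ (ZF K) z := by
      have h5 : ZF K =ᶠ[𝓝 z] fun w => cexp (LSeries (nf fun v => ∑ j, α0 v j) w + Rt α0 w) := by
        filter_upwards [(isOpen_lt continuous_const Complex.continuous_re).mem_nhds hre'] with w hw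
        rw [hL0 w hw, L_exp hα0 hw]
      have hzH : z ∈ Hp := by
        have : (3 / 4 : ℝ) < z.re := by linarith
        exact this
      have h6 : DifferentiableAt ℂ (fun w => cexp (LSeries (nf fun v => ∑ j, α0 v j) w +
          Rt α0 w)) z :=
        ((deriv_nf (sum_le hα0) hre').differentiableAt.add
          ((diff_Rt hα0).differentiableAt (isOpen_Hp.mem_nhds hzH))).cexp
      exact h6.congr_of_eventuallyEq h5
    have h7 : LF u l =ᶠ[𝓝 z] fun w => Λ w * ZF K w ^ k := by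
      filter_upwards [hz, (isOpen_lt continuous_const Complex.continuous_re).mem_nhds hre'] with w hw hw1
      exact hw hw1
    have h8 : deriv (LF u l) z / LF u l z = deriv Λ z / Λ z + k * (deriv (ZF K) z / ZF K z) := by
      have h9 : deriv (fun w => Λ w * ZF K w ^ k) z =
          deriv Λ z * ZF K z ^ k + Λ z * (k * ZF K z ^ (k - 1) * deriv (ZF K) z) := by
        have h10 : HasDerivAt (fun w => ZF K w ^ k) (k * ZF K z ^ (k - 1) * deriv (ZF K) z) z :=
          hdZ.hasDerivAt.pow k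
        exact (hzΛ.differentiableAt.hasDerivAt.mul h10).deriv
      rw [h7.deriv_eq, h7.eq_of_nhds, h9]
      rcases Nat.eq_zero_or_pos k with hk | hk
      · subst hk
        simp
      · have h11 : ZF K z ^ k = ZF K z ^ (k - 1) * ZF K z := by
          rw [← pow_succ, Nat.sub_add_cancel hk]
        have h12 : ZF K z ^ (k - 1) ≠ 0 := pow_ne_zero _ hn0
        rw [h11]
        field_simp
    have e1 : (fun v => ∑ j, α1 v j) = fun v => (trc u l v : ℂ) := funext fun v => al_sum hu l v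
    have e0 : (fun v => ∑ j, α0 v j) = fun _ : HeightOneSpectrum (𝓞 K) => (1 : ℂ) := by
      funext v
      simp [hα0']
    rw [e1] at hS1
    rw [e0] at hS0
    rw [S_lin hb1 hb0 (k : ℂ) hre', hS1, hS0, h8]
    ring
  · exact ⟨_, (an_S hbt h).continuousAt.tendsto.mono_left nhdsWithin_le_nhds⟩

theorem mn_trc (hu : IsSelfDualFamily u) {l : Fin m → ℕ} {k : ℕ}
    (hc : HasHolomorphicQuotient u l k) :
    Tendsto (mn fun v => (trc u l v : ℂ)) atTop (𝓝 (k : ℂ)) := by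
  have hB : (0 : ℝ) ≤ (∏ j, ((2 ^ N : ℕ) : ℝ) ^ l j) + k := by positivity
  have h1 := taub_mn (t := fun v => (trc u l v : ℂ) - (k : ℂ) * 1) hB (fun v => by
    refine (norm_sub_le _ _).trans (add_le_add ?_ ?_)
    · rw [Complex.norm_real]
      exact trc_le hu l v
    · rw [mul_one, Complex.norm_natCast]) fun s hs => bdry hu hc hs
  have h2 : ∀ᶠ n : ℕ in atTop, mn (fun _ : HeightOneSpectrum (𝓞 K) => (k : ℂ) * 1) n = k := by
    filter_upwards [card_ev (K := K)] with n hn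
    unfold mn
    rw [Finset.sum_const, nsmul_eq_mul, Complex.real_smul]
    push_cast
    have hn' : ((upto K n).card : ℂ) ≠ 0 := by exact_mod_cast hn
    field_simp
  have h3 : Tendsto (mn fun _ : HeightOneSpectrum (𝓞 K) => (k : ℂ) * 1) atTop (𝓝 (k : ℂ)) :=
    tendsto_const_nhds.congr' (h2.mono fun n hn => hn.symm)
  have h4 := h1.add h3
  rw [zero_add] at h4
  refine h4.congr fun n => ?_
  unfold mn
  rw [← smul_add, ← Finset.sum_add_distrib]
  congr 1
  exact Finset.sum_congr rfl fun v _ => by ring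

theorem natAvg_eq (F : (Fin m → ℝ) → ℝ) (n : ℕ) :
    ((natAvg u F n : ℝ) : ℂ) = mn (fun v => (F (coef m (u v)) : ℂ)) n := by
  unfold natAvg mn
  have hs : {v : HeightOneSpectrum (𝓞 K) | Ideal.absNorm v.asIdeal ≤ n} =
      ((upto K n : Finset (HeightOneSpectrum (𝓞 K))) : Set (HeightOneSpectrum (𝓞 K))) := by
    ext v
    rw [Finset.mem_coe, mem_upto]
    rfl
  rw [hs, finsum_mem_coe_finset, Set.ncard_coe_finset, Complex.real_smul]
  push_cast
  rw [div_eq_inv_mul]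

end

end Pool.Agent.U544.SC
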